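import Pool.Agent.helper765_bt.Link
import Pool.Agent.helper765_bt.Graph

/-!
# MP_ab4175_co: a construction of all matroids that are transversal and cotransversal

A cyclic flat is a flat that is a union of circuits.  Let `E` be a finite set, `B` a subset of `E`
and `G` a bipartite graph with the sides `B` and `E \ B`.  The cyclic flats of the principal
transversal matroid with the distinguished basis `B` and the graph `G` are the sets `B ∆ S`, for
the maximal independent sets `S` of vertices of `G`, and the rank of `B ∆ S` is `|B \ S|`.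

A datum consists of `B`, `G` and a map `φ` which deforms these cyclic flats: it assigns to every
maximal independent set `S` of `G` a subset `φ S` of `E` of the size of `B ∆ S`, such that
`φ S ⊆ φ T` exactly when `S \ B ⊆ T \ B`, and such that for every nonempty family of maximal
independent sets the intersection of the sets `φ S` is at most as large as the intersection of the
sets `B ∆ S` and the union of the sets `φ S` is at least as large as the union of the sets `B ∆ S`.

We show: for every datum there is exactly one matroid on `E` whose cyclic flats are the sets `φ S`,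
with the ranks `|B \ S|`; the matroids obtained in this way are exactly the matroids on `E` that are
both transversal and cotransversal; and the principal transversal matroids are exactly those with
`φ S = B ∆ S`.
-/

namespace Pool.Agent.Results.MP_ab4175_co.Construction

open Set Pool.Agent.H765

/-- The family `A` of subsets of the ground set presents `M`: the independent sets are exactly the
partial transversals of `A` (the sets `I` with an injective choice of indices `f` such that
`e ∈ A (f e)` for `e ∈ I`). -/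
def Presents {α : Type*} (M : Matroid α) {r : ℕ} (A : Fin r → Set α) : Prop :=
  (∀ i, A i ⊆ M.E) ∧
    ∀ I : Set α, M.Indep I ↔ ∃ f : I → Fin r, Function.Injective f ∧ ∀ e : I, (e : α) ∈ A (f e)

/-- `M` is transversal: it is presented by some finite family. -/
def IsTransversal {α : Type*} (M : Matroid α) : Prop :=
  ∃ (r : ℕ) (A : Fin r → Set α), Presents M A

/-- `M` is principal transversal: it has a presentation `A` and a basis consisting of elements `b i`
such that `b i` belongs to the member `A i` and to no other member. -/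
def IsPrincipal {α : Type*} (M : Matroid α) : Prop :=
  ∃ (r : ℕ) (A : Fin r → Set α) (b : Fin r → α),
    Presents M A ∧ M.IsBase (Set.range b) ∧ ∀ i j, b i ∈ A j ↔ j = i

/-- `F` is a cyclic flat of `M`: a flat each of whose elements lies in a circuit inside `F`. -/
def IsCyclicFlat {α : Type*} (M : Matroid α) (F : Set α) : Prop :=
  M.IsFlat F ∧ ∀ e ∈ F, ∃ C, M.IsCircuit C ∧ C ⊆ F ∧ e ∈ C

/-- `S` is a maximal independent set of the graph `G` within the set `E`: it is maximal with respect
to inclusion among the subsets of `E` in which no two vertices are adjacent. -/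
def IsMaxIndep {α : Type*} (E : Set α) (G : SimpleGraph α) (S : Set α) : Prop :=
  Maximal (fun T : Set α => T ⊆ E ∧ G.IsIndepSet T) S

/-- The set `B ⊆ E`, the graph `G` and the map `φ` from the maximal independent sets of `G` to the
sets form a datum: `G` is bipartite with the sides `B` and `E \ B`; the set `φ S` is a subset of `E`
with as many elements as `B ∆ S`; `φ S ⊆ φ T` exactly when `S \ B ⊆ T \ B` (equivalently, when
`B ∆ S ⊆ B ∆ T`); and for every nonempty family `𝓢` of maximal independent sets the intersection of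
the sets `φ S` has at most as many elements as the intersection of the sets `B ∆ S`, and the union of
the sets `φ S` has at least as many elements as the union of the sets `B ∆ S`. -/
def IsDatum {α : Type*} (E B : Set α) (G : SimpleGraph α)
    (φ : {S : Set α // IsMaxIndep E G S} → Set α) : Prop :=
  B ⊆ E ∧ G.IsBipartiteWith B (E \ B) ∧
    (∀ S, φ S ⊆ E ∧ (φ S).ncard = (symmDiff B S.1).ncard) ∧
    (∀ S T, φ S ⊆ φ T ↔ S.1 \ B ⊆ T.1 \ B) ∧
    ∀ 𝓢 : Set {S : Set α // IsMaxIndep E G S}, 𝓢.Nonempty →
      (⋂ S ∈ 𝓢, φ S).ncard ≤ (⋂ S ∈ 𝓢, symmDiff B S.1).ncard ∧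
      (⋃ S ∈ 𝓢, symmDiff B S.1).ncard ≤ (⋃ S ∈ 𝓢, φ S).ncard

/-- `M` is a matroid on `E` whose cyclic flats are the sets `φ S`, where `S` runs through the maximal
independent sets of `G`, and the rank of `φ S` is the number of elements of `B \ S`. -/
def HasCyclicFlats {α : Type*} (M : Matroid α) (E B : Set α) (G : SimpleGraph α)
    (φ : {S : Set α // IsMaxIndep E G S} → Set α) : Prop :=
  M.E = E ∧ (∀ F, IsCyclicFlat M F ↔ ∃ S, φ S = F) ∧ ∀ S, M.eRk (φ S) = (B \ S.1).encard

section link

variable {α : Type*}

theorem presents_iff {M : Matroid α} (hM : M.Finite) {r : ℕ} (A : Fin r → Set α) :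
    Presents M A ↔ (∀ i, A i ⊆ M.E) ∧ Pres M (idx A) := by
  constructor
  · rintro ⟨h1, h2⟩
    refine ⟨h1, fun I => ?_⟩
    rw [mt_idx, h2]
  · rintro ⟨h1, h2⟩
    refine ⟨h1, fun I => ?_⟩
    have key : ∀ I : Set α, I.Finite → (M.Indep I ↔ ∃ f : I → Fin r, Function.Injective f ∧
        ∀ e : I, (e : α) ∈ A (f e)) := by
      intro I hI
      have := h2 hI.toFinset
      rw [mt_idx, hI.coe_toFinset] at this
      exact this
    constructor
    · intro h
      exact (key I (M.ground_finite.subset h.subset_ground)).1 h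
    · rintro ⟨f, hf, h⟩
      have hfin : I.Finite := by
        have := Finite.of_injective f hf
        exact Set.toFinite I
      exact (key I hfin).2 ⟨f, hf, h⟩

/-- cut a presentation down to the size of the rank -/
theorem exists_rank_presentation {M : Matroid α} (hM : M.Finite) (h : IsTransversal M) :
    ∃ (r : ℕ) (A : Fin r → Set α), Presents M A ∧
      ∀ P : Finset α, M.IsBase (P : Set α) → P.card = r := by
  classical
  obtain ⟨k, A, hA⟩ := h
  rw [presents_iff hM] at hA
  set E := M.ground_finite.toFinset with hEdef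
  have hE : (E : Set α) = M.E := M.ground_finite.coe_toFinset
  obtain ⟨P, _, _, hP⟩ := exists_isBase_finset M hE (I := ∅) (by simp)
  obtain ⟨J, hJ, hJp⟩ := hA.2.reduce hP
  refine ⟨J.card, fun i => A (J.orderEmbOfFin rfl i), ?_, ?_⟩
  · rw [presents_iff hM]
    refine ⟨fun i => hA.1 _, ?_⟩
    intro I
    rw [hJp]
    rw [← mt_map (idx fun i => A (J.orderEmbOfFin rfl i)) (J.orderEmbOfFin rfl).toEmbedding]
    have : (fun e => (idx (fun i => A (J.orderEmbOfFin rfl i)) e).map
        (J.orderEmbOfFin rfl).toEmbedding) = fun e => idx A e ∩ J := by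
      funext e
      ext i
      rw [Finset.mem_map, Finset.mem_inter, mem_idx]
      constructor
      · rintro ⟨i', hi', rfl⟩
        rw [mem_idx] at hi'
        exact ⟨hi', Finset.orderEmbOfFin_mem _ _ _⟩
      · rintro ⟨h1, h2⟩
        have : i ∈ Set.range (J.orderEmbOfFin rfl) := by
          rw [Finset.range_orderEmbOfFin]; exact h2
        obtain ⟨i', rfl⟩ := this
        exact ⟨i', mem_idx.2 h1, rfl⟩
    rw [this]
  · intro P' hP'
    rw [isBase_card_eq hP' hP, hJ]

/-- transversality from index sets -/
theorem isTransversal_of_pres {M : Matroid α} (hM : M.Finite) {r : ℕ} {N : α → Finset (Fin r)}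
    (h : Pres M N) : Presents M (fun i => {e | i ∈ N e}) := by
  rw [presents_iff hM]
  refine ⟨fun i e he => h.mem_ground ⟨i, he⟩, ?_⟩
  have : idx (fun i => {e | i ∈ N e}) = N := by
    funext e
    ext i
    rw [mem_idx]
    rfl
  rw [this]
  exact h

/-- both matroids transversal: there is a dual pair of families that satisfies the Hall type
inequalities -/
theorem exists_sys [DecidableEq α] {M : Matroid α} (hM : M.Finite) {E : Finset α}
    (hE : (E : Set α) = M.E) (h1 : IsTransversal M) (h2 : IsTransversal M✶) :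
    ∃ (r s : ℕ) (N : α → Finset (Fin r)) (K : α → Finset (Fin s)), Sys M N K E := by
  have hMd : M✶.Finite := by
    constructor
    rw [Matroid.dual_ground]; exact M.ground_finite
  have hE' : (E : Set α) = M✶.E := by rw [hE, Matroid.dual_ground]
  obtain ⟨r, A, hA, hr⟩ := exists_rank_presentation hM h1
  obtain ⟨s, B, hB, hs⟩ := exists_rank_presentation hMd h2
  rw [presents_iff hM] at hA
  rw [presents_iff hMd] at hB
  have hc : r + s = E.card := by
    obtain ⟨P, _, hPE, hP⟩ := exists_isBase_finset M hE (I := ∅) (by simp)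
    have h3 := hr P hP
    have h4 := hP.compl_isBase_dual
    rw [← hE, ← Finset.coe_sdiff] at h4
    have h5 := hs _ h4
    rw [Finset.card_sdiff_of_subset hPE] at h5
    have := Finset.card_le_card hPE
    omega
  have hc' : Fintype.card (Fin r) + Fintype.card (Fin s) = E.card := by
    rw [Fintype.card_fin, Fintype.card_fin, hc]
  refine ⟨r, s, idx A, idx B, hE, hA.2, hB.2, hc', ?_, ?_⟩
  · exact DH_of_dual hE hA.2 hB.2 (fun P hP => by rw [hr P hP, Fintype.card_fin]) hc'
  · apply DH_of_dual hE' hB.2 _ (fun P hP => by rw [hs P hP, Fintype.card_fin])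
      (by rw [add_comm]; exact hc')
    rw [Matroid.dual_dual]; exact hA.2

/-- the matroid of a star system is principal -/
theorem star_principal [DecidableEq α] {P : Matroid α} {r s : ℕ} {R : Fin r → Fin s → Prop}
    {b : Fin r → α} {c : Fin s → α} {N : α → Finset (Fin r)} {K : α → Finset (Fin s)}
    {E : Finset α} (hs : Star R b c N K E) (hE : P.E = (E : Set α)) (hP : Pres P N) :
    IsPrincipal P := by
  classical
  have hPf : P.Finite := ⟨by rw [hE]; exact E.finite_toSet⟩
  refine ⟨r, fun i => {e | i ∈ N e}, b, isTransversal_of_pres hPf hP, ?_, ?_⟩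
  · set I : Finset α := Finset.univ.map ⟨b, hs.b_inj⟩ with hI
    have hIb : (I : Set α) = Set.range b := by
      rw [hI, Finset.coe_map, Finset.coe_univ, Set.image_univ]
      rfl
    have hIc : I.card = r := by
      rw [hI, Finset.card_map, Finset.card_univ, Fintype.card_fin]
    have hmt : Mt N I := by
      intro D hD
      have h1 : D ⊆ (D.biUnion N).map ⟨b, hs.b_inj⟩ := by
        intro e he
        have h2 := hD he
        rw [hI, Finset.mem_map] at h2
        obtain ⟨i, _, rfl⟩ := h2
        rw [Finset.mem_map]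
        exact ⟨i, Finset.mem_biUnion.2 ⟨_, he, (hs.memN _ _).2 (Or.inl rfl)⟩, rfl⟩
      have h3 := Finset.card_le_card h1
      rwa [Finset.card_map] at h3
    obtain ⟨B, hIB, _, hB⟩ := exists_isBase_finset P hE.symm ((hP I).2 hmt)
    have h1 := ((hP B).1 hB.indep).card_le
    rw [Fintype.card_fin] at h1
    have h2 : I = B := Finset.eq_of_subset_of_card_le hIB (by omega)
    rw [← hIb, h2]
    exact hB
  · intro i j
    show j ∈ N (b i) ↔ j = i
    rw [hs.memN]
    constructor
    · rintro (h | ⟨j', h, _⟩)
      · exact (hs.b_inj h).symm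
      · exact absurd h (hs.ne i j')
    · rintro rfl
      exact Or.inl rfl

theorem forward {M : Matroid α} (hM : M.Finite) (h1 : IsTransversal M)
    (h2 : IsTransversal M✶) : ∃ P : Matroid α, P.E = M.E ∧ IsPrincipal P ∧
      ∃ φ : {F : Set α // CycFlat M F} ≃o {F : Set α // CycFlat P F}, Dominated M P φ := by
  classical
  set E := M.ground_finite.toFinset with hEdef
  have hE : (E : Set α) = M.E := M.ground_finite.coe_toFinset
  obtain ⟨r, s, N, K, hsys⟩ := exists_sys hM hE h1 h2
  have hc := hsys.card
  rw [Fintype.card_fin, Fintype.card_fin] at hc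
  let ε : E ≃ Fin (r + s) := Finset.equivFinOfCardEq hc.symm
  have hb : Function.Injective (fun i : Fin r => ((ε.symm (Fin.castAdd s i)).1 : α)) := by
    intro i i' h
    have h3 := ε.symm.injective (Subtype.ext h)
    exact Fin.castAdd_injective _ _ h3
  have hcc : Function.Injective (fun j : Fin s => ((ε.symm (Fin.natAdd r j)).1 : α)) := by
    intro j j' h
    have h3 := ε.symm.injective (Subtype.ext h)
    exact Fin.natAdd_injective _ _ h3
  have hbc : ∀ (i : Fin r) (j : Fin s),
      ((ε.symm (Fin.castAdd s i)).1 : α) ≠ ((ε.symm (Fin.natAdd r j)).1 : α) := by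
    intro i j h
    have h3 := ε.symm.injective (Subtype.ext h)
    have h4 := congrArg Fin.val h3
    rw [Fin.val_castAdd, Fin.val_natAdd] at h4
    have := i.2
    omega
  have hmem : ∀ e, e ∈ E ↔ (∃ i : Fin r, e = ((ε.symm (Fin.castAdd s i)).1 : α)) ∨
      ∃ j : Fin s, e = ((ε.symm (Fin.natAdd r j)).1 : α) := by
    intro e
    constructor
    · intro he
      obtain ⟨k, hk⟩ := ε.symm.surjective ⟨e, he⟩
      induction k using Fin.addCases with
      | left i => exact Or.inl ⟨i, by rw [hk]⟩
      | right j => exact Or.inr ⟨j, by rw [hk]⟩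
    · rintro (⟨i, rfl⟩ | ⟨j, rfl⟩)
      · exact (ε.symm _).2
      · exact (ε.symm _).2
  obtain ⟨N', K', hstar⟩ := exists_star (Adj N K E) hb hcc hbc hmem
  obtain ⟨P, hPE, hP⟩ := exists_pres N' E (by
    rintro e ⟨i, hi⟩
    rw [hstar.memN] at hi
    rw [hmem]
    rcases hi with h | ⟨j, h, _⟩
    · exact Or.inl ⟨i, h⟩
    · exact Or.inr ⟨j, h⟩)
  refine ⟨P, by rw [hPE, hE], star_principal hstar hPE hP, ?_⟩
  exact hsys.forward rfl hstar (hstar.sys hPE hP)

/-- a principal matroid belongs to a star system -/
theorem principal_star [DecidableEq α] {P : Matroid α} {E : Finset α}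
    (hE : (E : Set α) = P.E) (hP : IsPrincipal P) :
    ∃ (r s : ℕ) (R : Fin r → Fin s → Prop) (b : Fin r → α) (c : Fin s → α)
      (N' : α → Finset (Fin r)) (K' : α → Finset (Fin s)),
      Star R b c N' K' E ∧ Sys P N' K' E := by
  classical
  have hPf : P.Finite := ⟨by rw [← hE]; exact E.finite_toSet⟩
  obtain ⟨r, A, b, hA, hb, hbA⟩ := hP
  rw [presents_iff hPf] at hA
  have hbinj : Function.Injective b := by
    intro i i' h
    have h1 : b i ∈ A i' := by rw [h]; exact (hbA i' i').2 rfl
    exact ((hbA i i').1 h1).symm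
  have hbE : ∀ i, b i ∈ E := by
    intro i
    have h1 := hb.subset_ground (Set.mem_range_self i)
    rw [← hE] at h1
    exact_mod_cast h1
  set W : Finset α := E \ Finset.univ.map ⟨b, hbinj⟩ with hW
  let ε : W ≃ Fin W.card := Finset.equivFinOfCardEq rfl
  have hc : Function.Injective (fun j : Fin W.card => ((ε.symm j).1 : α)) := by
    intro j j' h
    exact ε.symm.injective (Subtype.ext h)
  have hWb : ∀ e, e ∈ W ↔ e ∈ E ∧ ∀ i, e ≠ b i := by
    intro e
    rw [hW, Finset.mem_sdiff, Finset.mem_map]
    constructor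
    · rintro ⟨h1, h2⟩
      exact ⟨h1, fun i h3 => h2 ⟨i, Finset.mem_univ _, h3.symm⟩⟩
    · rintro ⟨h1, h2⟩
      refine ⟨h1, ?_⟩
      rintro ⟨i, _, h3⟩
      exact h2 i h3.symm
  have hbc : ∀ (i : Fin r) (j : Fin W.card), b i ≠ ((ε.symm j).1 : α) := by
    intro i j h
    exact ((hWb _).1 (ε.symm j).2).2 i h.symm
  have hmem : ∀ e, e ∈ E ↔ (∃ i : Fin r, e = b i) ∨
      ∃ j : Fin W.card, e = ((ε.symm j).1 : α) := by
    intro e
    constructor
    · intro he
      by_cases h1 : ∃ i, e = b i
      · exact Or.inl h1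
      · push Not at h1
        obtain ⟨j, hj⟩ := ε.symm.surjective ⟨e, (hWb e).2 ⟨he, h1⟩⟩
        exact Or.inr ⟨j, by rw [hj]⟩
    · rintro (⟨i, rfl⟩ | ⟨j, rfl⟩)
      · exact hbE i
      · exact ((hWb _).1 (ε.symm j).2).1
  obtain ⟨N', K', hstar⟩ := exists_star
    (fun (i : Fin r) (j : Fin W.card) => ((ε.symm j).1 : α) ∈ A i) hbinj hc hbc hmem
  have hN' : N' = idx A := by
    funext e
    ext i
    rw [hstar.memN, mem_idx]
    constructor
    · rintro (rfl | ⟨j, rfl, h⟩)
      · exact (hbA i i).2 rfl
      · exact h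
    · intro he
      have heE : e ∈ E := by
        have := hA.1 i he
        rw [← hE] at this
        exact_mod_cast this
      rcases (hmem e).1 heE with ⟨i', rfl⟩ | ⟨j, rfl⟩
      · left
        rw [(hbA i' i).1 he]
      · exact Or.inr ⟨j, rfl, he⟩
  rw [hN'] at hstar
  exact ⟨_, _, _, _, _, _, _, hstar, hstar.sys hE.symm hA.2⟩

/-- every deformation is realized by a matroid that is transversal and cotransversal -/
theorem exists_of_deform {P : Matroid α} (hPf : P.Finite) (hP : IsPrincipal P)
    {φ : {F : Set α // CycFlat P F} → Set α} (hφ : Deform P φ) :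
    ∃ M : Matroid α, Realizes M P φ ∧ IsTransversal M ∧ IsTransversal M✶ := by
  classical
  set E := P.ground_finite.toFinset with hEdef
  have hE : (E : Set α) = P.E := P.ground_finite.coe_toFinset
  obtain ⟨r, s, R, b, c, N', K', _, hsysP⟩ := principal_star hE hP
  obtain ⟨M, N, K, hsys, hM⟩ := hsysP.construct hφ
  have hMf : M.Finite := ⟨by rw [hM.1]; exact P.ground_finite⟩
  have hMd : M✶.Finite := by
    constructor
    rw [Matroid.dual_ground]; exact M.ground_finite
  exact ⟨M, hM, ⟨r, _, isTransversal_of_pres hMf hsys.pres⟩,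
    ⟨s, _, isTransversal_of_pres hMd hsys.dpres⟩⟩

/-- the isomorphism of the lattices of cyclic flats is a deformation -/
theorem deform_of_dominated {M P : Matroid α} (hE : P.E = M.E)
    {φ : {F : Set α // CycFlat M F} ≃o {F : Set α // CycFlat P F}} (hφ : Dominated M P φ) :
    Deform P (fun F => (φ.symm F).1) ∧ Realizes M P (fun F => (φ.symm F).1) := by
  obtain ⟨h1, h2⟩ := hφ
  refine ⟨⟨?_, ?_, ?_⟩, hE.symm, ?_, ?_⟩
  · intro F
    refine ⟨by rw [hE]; exact (φ.symm F).2.1.subset_ground, ?_⟩
    have h3 := (h1 (φ.symm F)).1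
    rw [OrderIso.apply_symm_apply] at h3
    exact h3.symm
  · intro F G
    have h3 : φ.symm F ≤ φ.symm G ↔ F ≤ G := φ.symm.le_iff_le
    exact h3
  · intro 𝓕 h𝓕
    have h3 := h2 (φ.symm '' 𝓕) (h𝓕.image _)
    rw [Set.biInter_image, Set.biInter_image, Set.biUnion_image, Set.biUnion_image] at h3
    simp only [OrderIso.apply_symm_apply] at h3
    exact h3
  · intro G
    constructor
    · intro hG
      refine ⟨φ ⟨G, hG⟩, ?_⟩
      show (φ.symm (φ ⟨G, hG⟩)).1 = G
      rw [OrderIso.symm_apply_apply]
    · rintro ⟨F, rfl⟩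
      exact (φ.symm F).2
  · intro F
    have h3 := (h1 (φ.symm F)).2
    rw [OrderIso.apply_symm_apply] at h3
    exact h3.symm

/-- a datum is realized by exactly one matroid, and this matroid and its dual are transversal -/
theorem exists_of_datum {E : Finset α} {B : Set α} {G : SimpleGraph α}
    {φ : {S : Set α // MaxIndep (E : Set α) G S} → Set α} (hφ : Datum E B G φ) :
    ∃ M : Matroid α, HasFlats M E B G φ ∧ IsTransversal M ∧ IsTransversal M✶ ∧
      ∀ M', HasFlats M' E B G φ → M' = M := by
  classical
  obtain ⟨P, r, s, R, b, c, N, K, hstar, hPE, hP, hG⟩ := exists_star_graph hφ.1 hφ.2.1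
  have hPf : P.Finite := ⟨by rw [hPE]; exact E.finite_toSet⟩
  obtain ⟨M, hM, h1, h2⟩ := exists_of_deform hPf (star_principal hstar hPE hP) (hG.deform hφ)
  exact ⟨M, hG.hasFlats_iff.2 hM, h1, h2, fun M' hM' =>
    Realizes.unique hPf (hG.hasFlats_iff.1 hM') hM⟩

/-- a principal matroid is the matroid of a bipartite graph -/
theorem exists_graph {P : Matroid α} {E : Finset α} (hE : (E : Set α) = P.E)
    (hP : IsPrincipal P) : ∃ (B : Set α) (G : SimpleGraph α), OfGraph P E B G := by
  classical
  obtain ⟨r, s, R, b, c, N, K, hstar, hsys⟩ := principal_star hE hP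
  obtain ⟨G, hG⟩ := exists_graph_of_star hstar hsys
  exact ⟨_, G, hG⟩

theorem deform_id (P : Matroid α) : Deform P (fun F => F.1) :=
  ⟨fun F => ⟨F.2.1.subset_ground, rfl⟩, fun _ _ => Iff.rfl, fun _ _ => ⟨le_rfl, le_rfl⟩⟩

theorem realizes_id (P : Matroid α) : Realizes P P (fun F => F.1) :=
  ⟨rfl, fun G => ⟨fun h => ⟨⟨G, h⟩, rfl⟩, fun ⟨F, hF⟩ => hF ▸ F.2⟩, fun _ => rfl⟩

theorem principal_datum {P : Matroid α} {E B : Set α} {G : SimpleGraph α}
    (h : OfGraph P E B G) : Datum E B G (fun S => symmDiff B S.1) ∧
      HasFlats P E B G (fun S => symmDiff B S.1) := by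
  refine ⟨h.datum (deform_id P), h.hasFlats_iff.2 ?_⟩
  have h1 : (fun F : {F : Set α // CycFlat P F} => symmDiff B (h.equiv F).1) = fun F => F.1 := by
    funext F
    rw [h.equiv_coe, symmDiff_symmDiff_cancel_left]
  rw [h1]
  exact realizes_id P

end link

/-- **Result.**  Let `E` be a finite set.

(1) For every datum `(B, G, φ)` there is exactly one matroid on `E` whose cyclic flats are the sets
`φ S`, of the rank `|B \ S|`, where `S` runs through the maximal independent sets of `G`.

(2) The matroids that arise from the data in this way are exactly the matroids `M` on `E` such that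
`M` and its dual are both transversal.

(3) The matroids that arise from the data with `φ S = B ∆ S` are exactly the principal transversal
matroids on `E` (and `B`, `G` and this map form a datum for all `B` and `G`). -/
theorem result {α : Type*} (E : Set α) (hE : E.Finite) :
    (∀ (B : Set α) (G : SimpleGraph α) (φ : {S : Set α // IsMaxIndep E G S} → Set α),
      IsDatum E B G φ → ∃! M : Matroid α, HasCyclicFlats M E B G φ) ∧
    (∀ M : Matroid α, M.E = E → ((IsTransversal M ∧ IsTransversal M✶) ↔
      ∃ (B : Set α) (G : SimpleGraph α) (φ : {S : Set α // IsMaxIndep E G S} → Set α),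
        IsDatum E B G φ ∧ HasCyclicFlats M E B G φ)) ∧
    (∀ (B : Set α) (G : SimpleGraph α), B ⊆ E → G.IsBipartiteWith B (E \ B) →
      IsDatum E B G (fun S => symmDiff B S.1)) ∧
    (∀ M : Matroid α, M.E = E → (IsPrincipal M ↔
      ∃ (B : Set α) (G : SimpleGraph α), B ⊆ E ∧ G.IsBipartiteWith B (E \ B) ∧
        HasCyclicFlats M E B G (fun S => symmDiff B S.1))) := by
  classical
  obtain ⟨E, rfl⟩ : ∃ E' : Finset α, (E' : Set α) = E := ⟨hE.toFinset, hE.coe_toFinset⟩
  refine ⟨?_, ?_, ?_, ?_⟩
  · intro B G φ hφ
    obtain ⟨M, hM, _, _, hu⟩ := exists_of_datum (φ := φ) hφ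
    exact ⟨M, hM, hu⟩
  · intro M hME
    have hMf : M.Finite := ⟨by rw [hME]; exact hE⟩
    constructor
    · rintro ⟨h1, h2⟩
      obtain ⟨P, hPE, hP, ψ, hψ⟩ := forward hMf h1 h2
      obtain ⟨h3, h4⟩ := deform_of_dominated hPE hψ
      obtain ⟨B, G, hG⟩ := exists_graph (hPE.trans hME).symm hP
      refine ⟨B, G, _, hG.datum h3, hG.hasFlats_iff.2 ?_⟩
      simp only [Equiv.symm_apply_apply]
      exact h4
    · rintro ⟨B, G, φ, hφ, hM⟩
      obtain ⟨M', hM', h1, h2, hu⟩ := exists_of_datum (φ := φ) hφ
      rw [hu M hM]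
      exact ⟨h1, h2⟩
  · intro B G hB hG
    obtain ⟨P, _, _, _, _, _, _, _, _, _, _, hP⟩ := exists_star_graph hB hG
    exact (principal_datum hP).1
  · intro M hME
    constructor
    · intro hM
      obtain ⟨B, G, hG⟩ := exists_graph hME.symm hM
      exact ⟨B, G, hG.sub, hG.bip, (principal_datum hG).2⟩
    · rintro ⟨B, G, hB, hG, hM⟩
      obtain ⟨P, r, s, R, b, c, N, K, hstar, hPE, hPp, hP⟩ := exists_star_graph hB hG
      obtain ⟨h1, h2⟩ := principal_datum hP
      obtain ⟨M', _, _, _, hu⟩ := exists_of_datum h1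
      rw [hu M hM, ← hu P h2]
      exact star_principal hstar hPE hPp

end Pool.Agent.Results.MP_ab4175_co.Construction
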