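import Pool.Agent.helper765_bt.Link

/-!
# MP_ab4175_co: a Hall type characterization of the matroids that are transversal and cotransversal

Let `M` be a finite transversal matroid with a presentation `A` that has as many members as the rank.
We show that the dual of `M` is transversal if and only if there is a family `B` of subsets of the
ground set with `|A| + |B| = |E|` such that every subfamily of `A` and every subfamily of `B`
satisfies the Hall type inequality `|X| + |N(X)| ≤ |⋃ X|`, where `N(X)` is the set of members of the
other family that meet a member of `X`.  (Such a family `B` presents the dual.)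
-/

namespace Pool.Agent.Results.MP_ab4175_co.DoubleHall

open Set Pool.Agent.H765

/-- The family `A` of subsets of the ground set presents `M`: the independent sets are exactly the
partial transversals of `A` (the sets `I` with an injective choice of indices `f` such that
`e ∈ A (f e)` for `e ∈ I`). -/
def Presents {α : Type*} (M : Matroid α) {r : ℕ} (A : Fin r → Set α) : Prop :=
  (∀ i, A i ⊆ M.E) ∧
    ∀ I : Set α, M.Indep I ↔ ∃ f : I → Fin r, Function.Injective f ∧ ∀ e : I, (e : α) ∈ A (f e)

/-- `M` is transversal: it is presented by some finite family. -/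
def IsTransversal {α : Type*} (M : Matroid α) : Prop :=
  ∃ (r : ℕ) (A : Fin r → Set α), Presents M A

/-- The Hall type inequality for `A` against `B`: for every set `X` of indices of `A`, the union of
the members `A i` with `i ∈ X` has at least `|X| + |N(X)|` elements, where `N(X)` is the set of
indices `j` such that `B j` meets `A i` for some `i ∈ X`. -/
def HallAgainst {α : Type*} {r s : ℕ} (A : Fin r → Set α) (B : Fin s → Set α) : Prop :=
  ∀ X : Set (Fin r),
    X.ncard + {j | ∃ i ∈ X, (A i ∩ B j).Nonempty}.ncard ≤ (⋃ i ∈ X, A i).ncard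

section link

variable {α : Type*}

theorem presents_iff {M : Matroid α} (hM : M.Finite) {r : ℕ} (A : Fin r → Set α) :
    Presents M A ↔ (∀ i, A i ⊆ M.E) ∧ Pres M (idx A) := by
  constructor
  · rintro ⟨h1, h2⟩
    refine ⟨h1, fun I => ?_⟩
    rw [mt_idx, h2]
  · rintro ⟨h1, h2⟩
    refine ⟨h1, fun I => ?_⟩
    have key : ∀ I : Set α, I.Finite → (M.Indep I ↔ ∃ f : I → Fin r, Function.Injective f ∧
        ∀ e : I, (e : α) ∈ A (f e)) := by
      intro I hI
      have := h2 hI.toFinset
      rw [mt_idx, hI.coe_toFinset] at this
      exact this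
    constructor
    · intro h
      exact (key I (M.ground_finite.subset h.subset_ground)).1 h
    · rintro ⟨f, hf, h⟩
      have hfin : I.Finite := by
        have := Finite.of_injective f hf
        exact Set.toFinite I
      exact (key I hfin).2 ⟨f, hf, h⟩

theorem hallAgainst_iff {M : Matroid α} {E : Finset α} (hE : (E : Set α) = M.E) {r s : ℕ}
    {A : Fin r → Set α} {B : Fin s → Set α} (hA : ∀ i, A i ⊆ M.E) :
    HallAgainst A B ↔ DH (idx A) (idx B) E := by
  have h1 : ∀ X : Finset (Fin r),
      (⋃ i ∈ (X : Set (Fin r)), A i) = ((cov (idx A) E X : Finset α) : Set α) := by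
    intro X
    ext e
    rw [Finset.mem_coe, mem_cov]
    simp only [Set.mem_iUnion, Finset.mem_coe]
    constructor
    · rintro ⟨i, hi, he⟩
      refine ⟨?_, i, mem_idx.2 he, hi⟩
      have := hA i he
      rw [← hE] at this
      exact this
    · rintro ⟨_, i, h, hi⟩
      exact ⟨i, hi, mem_idx.1 h⟩
  have h2 : ∀ X : Finset (Fin r), {j | ∃ i ∈ (X : Set (Fin r)), (A i ∩ B j).Nonempty} =
      ((nbr (idx A) (idx B) E X : Finset (Fin s)) : Set (Fin s)) := by
    intro X
    ext j
    rw [Finset.mem_coe, mem_nbr]
    constructor
    · rintro ⟨i, hi, e, he1, he2⟩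
      refine ⟨e, ?_, ⟨i, mem_idx.2 he1, hi⟩, mem_idx.2 he2⟩
      have := hA i he1
      rw [← hE] at this
      exact this
    · rintro ⟨e, _, ⟨i, h, hi⟩, hj⟩
      exact ⟨i, hi, e, mem_idx.1 h, mem_idx.1 hj⟩
  constructor
  · intro h X
    have := h (X : Set (Fin r))
    rw [h1, h2, Set.ncard_coe_finset, Set.ncard_coe_finset, Set.ncard_coe_finset] at this
    exact this
  · intro h X
    obtain ⟨X', rfl⟩ : ∃ X' : Finset (Fin r), (X' : Set (Fin r)) = X :=
      ⟨(Set.toFinite X).toFinset, (Set.toFinite X).coe_toFinset⟩
    rw [h1, h2, Set.ncard_coe_finset, Set.ncard_coe_finset, Set.ncard_coe_finset]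
    exact h X'

/-- cut a presentation down to the size of the rank -/
theorem exists_rank_presentation {M : Matroid α} (hM : M.Finite) (h : IsTransversal M) :
    ∃ (r : ℕ) (A : Fin r → Set α), Presents M A ∧
      ∀ P : Finset α, M.IsBase (P : Set α) → P.card = r := by
  classical
  obtain ⟨k, A, hA⟩ := h
  rw [presents_iff hM] at hA
  set E := M.ground_finite.toFinset with hEdef
  have hE : (E : Set α) = M.E := M.ground_finite.coe_toFinset
  obtain ⟨P, _, _, hP⟩ := exists_isBase_finset M hE (I := ∅) (by simp)
  obtain ⟨J, hJ, hJp⟩ := hA.2.reduce hP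
  refine ⟨J.card, fun i => A (J.orderEmbOfFin rfl i), ?_, ?_⟩
  · rw [presents_iff hM]
    refine ⟨fun i => hA.1 _, ?_⟩
    intro I
    rw [hJp]
    rw [← mt_map (idx fun i => A (J.orderEmbOfFin rfl i)) (J.orderEmbOfFin rfl).toEmbedding]
    have : (fun e => (idx (fun i => A (J.orderEmbOfFin rfl i)) e).map
        (J.orderEmbOfFin rfl).toEmbedding) = fun e => idx A e ∩ J := by
      funext e
      ext i
      rw [Finset.mem_map, Finset.mem_inter, mem_idx]
      constructor
      · rintro ⟨i', hi', rfl⟩
        rw [mem_idx] at hi'
        exact ⟨hi', Finset.orderEmbOfFin_mem _ _ _⟩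
      · rintro ⟨h1, h2⟩
        have : i ∈ Set.range (J.orderEmbOfFin rfl) := by
          rw [Finset.range_orderEmbOfFin]; exact h2
        obtain ⟨i', rfl⟩ := this
        exact ⟨i', mem_idx.2 h1, rfl⟩
    rw [this]
  · intro P' hP'
    rw [isBase_card_eq hP' hP, hJ]

/-- The pair version of the characterization: let `A` present `M` and let `B` be a family of subsets
of the ground set with `|A| + |B| = |E|`.  Then `B` presents the dual and `A` has as many members as
the rank if and only if both Hall type inequalities hold. -/
theorem pair {M : Matroid α} (hM : M.Finite) {r s : ℕ} {A : Fin r → Set α} {B : Fin s → Set α}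
    (hA : Presents M A) (hB : ∀ j, B j ⊆ M.E) (hc : r + s = M.E.ncard) :
    ((∀ P : Set α, M.IsBase P → P.ncard = r) ∧ Presents M✶ B) ↔
      HallAgainst A B ∧ HallAgainst B A := by
  classical
  set E := M.ground_finite.toFinset with hEdef
  have hE : (E : Set α) = M.E := M.ground_finite.coe_toFinset
  have hE' : (E : Set α) = M✶.E := by rw [hE, Matroid.dual_ground]
  have hMd : M✶.Finite := by
    constructor
    rw [Matroid.dual_ground]; exact M.ground_finite
  rw [presents_iff hM] at hA
  rw [presents_iff hMd, hallAgainst_iff hE hA.1, hallAgainst_iff hE hB]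
  have hc' : Fintype.card (Fin r) + Fintype.card (Fin s) = E.card := by
    rw [Fintype.card_fin, Fintype.card_fin, hc, ← hE, Set.ncard_coe_finset]
  constructor
  · rintro ⟨h1, h2, h3⟩
    have hr : ∀ P : Finset α, M.IsBase (P : Set α) → P.card = Fintype.card (Fin r) := by
      intro P hP
      have := h1 _ hP
      rw [Set.ncard_coe_finset] at this
      rw [this, Fintype.card_fin]
    refine ⟨DH_of_dual hE hA.2 h3 hr hc', DH_of_dual hE' h3 ?_ ?_ ?_⟩
    · rw [Matroid.dual_dual]; exact hA.2
    · intro P hP
      have h4 := hP.compl_isBase_of_dual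
      have hPE : P ⊆ E := by
        rw [← Finset.coe_subset, hE']; exact hP.subset_ground
      rw [← hE, ← Finset.coe_sdiff] at h4
      have h5 := hr _ h4
      rw [Finset.card_sdiff_of_subset hPE] at h5
      have := Finset.card_le_card hPE
      omega
    · rw [add_comm]; exact hc'
  · rintro ⟨h1, h2⟩
    obtain ⟨h3, h4⟩ := dual_of_DH hE hA.2 (K := idx B) (by
      rintro e ⟨j, hj⟩
      have := hB j (mem_idx.1 hj)
      rw [← hE] at this
      exact this) hc' h1 h2
    refine ⟨?_, by rw [Matroid.dual_ground]; exact hB, h3⟩
    intro P hP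
    have hfin : P.Finite := M.ground_finite.subset hP.subset_ground
    have := h4 hfin.toFinset (by rw [hfin.coe_toFinset]; exact hP)
    rw [Set.ncard_eq_toFinset_card P hfin, this, Fintype.card_fin]

end link

/-- **Result.**  Let `M` be a finite transversal matroid with a presentation `A` that has as many
members as the rank of `M`.  Then the dual of `M` is transversal if and only if there is a family
`B` of subsets of the ground set with `|A| + |B| = |E|` such that `A` and `B` satisfy the Hall type
inequality against each other. -/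
theorem result {α : Type*} (M : Matroid α) (hM : M.Finite) {r : ℕ} (A : Fin r → Set α)
    (hA : Presents M A) (hr : ∀ P : Set α, M.IsBase P → P.ncard = r) :
    IsTransversal M✶ ↔
      ∃ (s : ℕ) (B : Fin s → Set α), (∀ j, B j ⊆ M.E) ∧ r + s = M.E.ncard ∧
        HallAgainst A B ∧ HallAgainst B A := by
  have hMd : M✶.Finite := by
    constructor
    rw [Matroid.dual_ground]; exact M.ground_finite
  constructor
  · intro h2
    obtain ⟨s, B, hB, hs⟩ := exists_rank_presentation hMd h2
    have hc : r + s = M.E.ncard := by
      set E := M.ground_finite.toFinset with hEdef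
      have hE : (E : Set α) = M.E := M.ground_finite.coe_toFinset
      obtain ⟨P, _, hPE, hP⟩ := exists_isBase_finset M hE (I := ∅) (by simp)
      classical
      have h3 := hr P hP
      rw [Set.ncard_coe_finset] at h3
      have h4 := hP.compl_isBase_dual
      rw [← hE, ← Finset.coe_sdiff] at h4
      have h5 := hs _ h4
      rw [Finset.card_sdiff_of_subset hPE] at h5
      have := Finset.card_le_card hPE
      rw [← hE, Set.ncard_coe_finset]
      omega
    have hB' : ∀ j, B j ⊆ M.E := by
      intro j
      have := hB.1 j
      rwa [Matroid.dual_ground] at this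
    exact ⟨s, B, hB', hc, (pair hM hA hB' hc).1 ⟨hr, hB⟩⟩
  · rintro ⟨s, B, hB, hc, h⟩
    exact ⟨s, B, ((pair hM hA hB hc).2 h).2⟩

/-- the resulting description of the class -/
theorem class_iff {α : Type*} (M : Matroid α) (hM : M.Finite) :
    (IsTransversal M ∧ IsTransversal M✶) ↔
      ∃ (r s : ℕ) (A : Fin r → Set α) (B : Fin s → Set α), Presents M A ∧ (∀ j, B j ⊆ M.E) ∧
        r + s = M.E.ncard ∧ HallAgainst A B ∧ HallAgainst B A := by
  constructor
  · rintro ⟨h1, h2⟩
    obtain ⟨r, A, hA, hr⟩ := exists_rank_presentation hM h1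
    obtain ⟨s, B, h⟩ := (result M hM A hA (by
      intro P hP
      have hfin : P.Finite := M.ground_finite.subset hP.subset_ground
      have := hr hfin.toFinset (by rw [hfin.coe_toFinset]; exact hP)
      rw [Set.ncard_eq_toFinset_card P hfin, this])).1 h2
    exact ⟨r, s, A, B, hA, h⟩
  · rintro ⟨r, s, A, B, hA, hB, hc, h⟩
    exact ⟨⟨r, A, hA⟩, ⟨s, B, ((pair hM hA hB hc).2 h).2⟩⟩

end Pool.Agent.Results.MP_ab4175_co.DoubleHall
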