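import Pool.Agent.helper765_bt.Link
import Pool.Agent.helper765_bt.MI

/-!
# MP_ab4175_co: principal matroids inside the class

We show that a finite matroid is principal transversal if and only if it is transversal, its dual is
transversal, and every two meet irreducible cyclic flats form a modular pair.
-/

namespace Pool.Agent.Results.MP_ab4175_co.ModularPairs

open Set Pool.Agent.H765

/-- The family `A` of subsets of the ground set presents `M`: the independent sets are exactly the
partial transversals of `A` (the sets `I` with an injective choice of indices `f` such that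
`e ∈ A (f e)` for `e ∈ I`). -/
def Presents {α : Type*} (M : Matroid α) {r : ℕ} (A : Fin r → Set α) : Prop :=
  (∀ i, A i ⊆ M.E) ∧
    ∀ I : Set α, M.Indep I ↔ ∃ f : I → Fin r, Function.Injective f ∧ ∀ e : I, (e : α) ∈ A (f e)

/-- `M` is transversal: it is presented by some finite family. -/
def IsTransversal {α : Type*} (M : Matroid α) : Prop :=
  ∃ (r : ℕ) (A : Fin r → Set α), Presents M A

/-- `M` is principal transversal: it has a presentation `A` and a basis consisting of elements `b i`
such that `b i` belongs to the member `A i` and to no other member. -/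
def IsPrincipal {α : Type*} (M : Matroid α) : Prop :=
  ∃ (r : ℕ) (A : Fin r → Set α) (b : Fin r → α),
    Presents M A ∧ M.IsBase (Set.range b) ∧ ∀ i j, b i ∈ A j ↔ j = i

/-- `F` is a cyclic flat of `M`: a flat each of whose elements lies in a circuit inside `F`. -/
def IsCyclicFlat {α : Type*} (M : Matroid α) (F : Set α) : Prop :=
  M.IsFlat F ∧ ∀ e ∈ F, ∃ C, M.IsCircuit C ∧ C ⊆ F ∧ e ∈ C

/-- `F` and `G` form a modular pair: the submodular inequality of the rank function holds with
equality for them. -/
def ModularPair {α : Type*} (M : Matroid α) (F G : Set α) : Prop :=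
  M.eRk (F ∪ G) + M.eRk (F ∩ G) = M.eRk F + M.eRk G

/-- The cyclic flat `F` is meet irreducible in the lattice of cyclic flats: it is not the greatest
lower bound of the strictly larger cyclic flats. -/
def MeetIrreducible {α : Type*} {M : Matroid α} (F : {F : Set α // IsCyclicFlat M F}) : Prop :=
  ¬ IsGLB {G | F < G} F

section link

variable {α : Type*}

theorem presents_iff {M : Matroid α} (hM : M.Finite) {r : ℕ} (A : Fin r → Set α) :
    Presents M A ↔ (∀ i, A i ⊆ M.E) ∧ Pres M (idx A) := by
  constructor
  · rintro ⟨h1, h2⟩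
    refine ⟨h1, fun I => ?_⟩
    rw [mt_idx, h2]
  · rintro ⟨h1, h2⟩
    refine ⟨h1, fun I => ?_⟩
    have key : ∀ I : Set α, I.Finite → (M.Indep I ↔ ∃ f : I → Fin r, Function.Injective f ∧
        ∀ e : I, (e : α) ∈ A (f e)) := by
      intro I hI
      have := h2 hI.toFinset
      rw [mt_idx, hI.coe_toFinset] at this
      exact this
    constructor
    · intro h
      exact (key I (M.ground_finite.subset h.subset_ground)).1 h
    · rintro ⟨f, hf, h⟩
      have hfin : I.Finite := by
        have := Finite.of_injective f hf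
        exact Set.toFinite I
      exact (key I hfin).2 ⟨f, hf, h⟩

/-- cut a presentation down to the size of the rank -/
theorem exists_rank_presentation {M : Matroid α} (hM : M.Finite) (h : IsTransversal M) :
    ∃ (r : ℕ) (A : Fin r → Set α), Presents M A ∧
      ∀ P : Finset α, M.IsBase (P : Set α) → P.card = r := by
  classical
  obtain ⟨k, A, hA⟩ := h
  rw [presents_iff hM] at hA
  set E := M.ground_finite.toFinset with hEdef
  have hE : (E : Set α) = M.E := M.ground_finite.coe_toFinset
  obtain ⟨P, _, _, hP⟩ := exists_isBase_finset M hE (I := ∅) (by simp)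
  obtain ⟨J, hJ, hJp⟩ := hA.2.reduce hP
  refine ⟨J.card, fun i => A (J.orderEmbOfFin rfl i), ?_, ?_⟩
  · rw [presents_iff hM]
    refine ⟨fun i => hA.1 _, ?_⟩
    intro I
    rw [hJp]
    rw [← mt_map (idx fun i => A (J.orderEmbOfFin rfl i)) (J.orderEmbOfFin rfl).toEmbedding]
    have : (fun e => (idx (fun i => A (J.orderEmbOfFin rfl i)) e).map
        (J.orderEmbOfFin rfl).toEmbedding) = fun e => idx A e ∩ J := by
      funext e
      ext i
      rw [Finset.mem_map, Finset.mem_inter, mem_idx]
      constructor
      · rintro ⟨i', hi', rfl⟩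
        rw [mem_idx] at hi'
        exact ⟨hi', Finset.orderEmbOfFin_mem _ _ _⟩
      · rintro ⟨h1, h2⟩
        have : i ∈ Set.range (J.orderEmbOfFin rfl) := by
          rw [Finset.range_orderEmbOfFin]; exact h2
        obtain ⟨i', rfl⟩ := this
        exact ⟨i', mem_idx.2 h1, rfl⟩
    rw [this]
  · intro P' hP'
    rw [isBase_card_eq hP' hP, hJ]

/-- transversality from index sets -/
theorem isTransversal_of_pres {M : Matroid α} (hM : M.Finite) {r : ℕ} {N : α → Finset (Fin r)}
    (h : Pres M N) : Presents M (fun i => {e | i ∈ N e}) := by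
  rw [presents_iff hM]
  refine ⟨fun i e he => h.mem_ground ⟨i, he⟩, ?_⟩
  have : idx (fun i => {e | i ∈ N e}) = N := by
    funext e
    ext i
    rw [mem_idx]
    rfl
  rw [this]
  exact h

/-- both matroids transversal: there is a dual pair of families that satisfies the Hall type
inequalities -/
theorem exists_sys [DecidableEq α] {M : Matroid α} (hM : M.Finite) {E : Finset α}
    (hE : (E : Set α) = M.E) (h1 : IsTransversal M) (h2 : IsTransversal M✶) :
    ∃ (r s : ℕ) (N : α → Finset (Fin r)) (K : α → Finset (Fin s)), Sys M N K E := by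
  have hMd : M✶.Finite := by
    constructor
    rw [Matroid.dual_ground]; exact M.ground_finite
  have hE' : (E : Set α) = M✶.E := by rw [hE, Matroid.dual_ground]
  obtain ⟨r, A, hA, hr⟩ := exists_rank_presentation hM h1
  obtain ⟨s, B, hB, hs⟩ := exists_rank_presentation hMd h2
  rw [presents_iff hM] at hA
  rw [presents_iff hMd] at hB
  have hc : r + s = E.card := by
    obtain ⟨P, _, hPE, hP⟩ := exists_isBase_finset M hE (I := ∅) (by simp)
    have h3 := hr P hP
    have h4 := hP.compl_isBase_dual
    rw [← hE, ← Finset.coe_sdiff] at h4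
    have h5 := hs _ h4
    rw [Finset.card_sdiff_of_subset hPE] at h5
    have := Finset.card_le_card hPE
    omega
  have hc' : Fintype.card (Fin r) + Fintype.card (Fin s) = E.card := by
    rw [Fintype.card_fin, Fintype.card_fin, hc]
  refine ⟨r, s, idx A, idx B, hE, hA.2, hB.2, hc', ?_, ?_⟩
  · exact DH_of_dual hE hA.2 hB.2 (fun P hP => by rw [hr P hP, Fintype.card_fin]) hc'
  · apply DH_of_dual hE' hB.2 _ (fun P hP => by rw [hs P hP, Fintype.card_fin])
      (by rw [add_comm]; exact hc')
    rw [Matroid.dual_dual]; exact hA.2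

/-- the matroid of a star system is principal -/
theorem star_principal [DecidableEq α] {P : Matroid α} {r s : ℕ} {R : Fin r → Fin s → Prop}
    {b : Fin r → α} {c : Fin s → α} {N : α → Finset (Fin r)} {K : α → Finset (Fin s)}
    {E : Finset α} (hs : Star R b c N K E) (hE : P.E = (E : Set α)) (hP : Pres P N) :
    IsPrincipal P := by
  classical
  have hPf : P.Finite := ⟨by rw [hE]; exact E.finite_toSet⟩
  refine ⟨r, fun i => {e | i ∈ N e}, b, isTransversal_of_pres hPf hP, ?_, ?_⟩
  · set I : Finset α := Finset.univ.map ⟨b, hs.b_inj⟩ with hI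
    have hIb : (I : Set α) = Set.range b := by
      rw [hI, Finset.coe_map, Finset.coe_univ, Set.image_univ]
      rfl
    have hIc : I.card = r := by
      rw [hI, Finset.card_map, Finset.card_univ, Fintype.card_fin]
    have hmt : Mt N I := by
      intro D hD
      have h1 : D ⊆ (D.biUnion N).map ⟨b, hs.b_inj⟩ := by
        intro e he
        have h2 := hD he
        rw [hI, Finset.mem_map] at h2
        obtain ⟨i, _, rfl⟩ := h2
        rw [Finset.mem_map]
        exact ⟨i, Finset.mem_biUnion.2 ⟨_, he, (hs.memN _ _).2 (Or.inl rfl)⟩, rfl⟩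
      have h3 := Finset.card_le_card h1
      rwa [Finset.card_map] at h3
    obtain ⟨B, hIB, _, hB⟩ := exists_isBase_finset P hE.symm ((hP I).2 hmt)
    have h1 := ((hP B).1 hB.indep).card_le
    rw [Fintype.card_fin] at h1
    have h2 : I = B := Finset.eq_of_subset_of_card_le hIB (by omega)
    rw [← hIb, h2]
    exact hB
  · intro i j
    show j ∈ N (b i) ↔ j = i
    rw [hs.memN]
    constructor
    · rintro (h | ⟨j', h, _⟩)
      · exact (hs.b_inj h).symm
      · exact absurd h (hs.ne i j')
    · rintro rfl
      exact Or.inl rfl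

/-- a principal matroid is the matroid of a star system -/
theorem exists_star_of_isPrincipal [DecidableEq α] {P : Matroid α} {E : Finset α}
    (hE : (E : Set α) = P.E) (hP : IsPrincipal P) :
    ∃ (r s : ℕ) (R : Fin r → Fin s → Prop) (b : Fin r → α) (c : Fin s → α)
      (N : α → Finset (Fin r)) (K : α → Finset (Fin s)), Star R b c N K E ∧ Pres P N := by
  classical
  have hPf : P.Finite := ⟨by rw [← hE]; exact E.finite_toSet⟩
  obtain ⟨r, A, b, hA, hb, hbA⟩ := hP
  rw [presents_iff hPf] at hA
  have hbinj : Function.Injective b := by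
    intro i i' h
    have h1 : b i ∈ A i' := by rw [h]; exact (hbA i' i').2 rfl
    exact ((hbA i i').1 h1).symm
  have hbE : ∀ i, b i ∈ E := by
    intro i
    have h1 := hb.subset_ground (Set.mem_range_self i)
    rw [← hE] at h1
    exact_mod_cast h1
  set W : Finset α := E \ Finset.univ.map ⟨b, hbinj⟩ with hW
  let ε : W ≃ Fin W.card := Finset.equivFinOfCardEq rfl
  have hc : Function.Injective (fun j : Fin W.card => ((ε.symm j).1 : α)) := by
    intro j j' h
    exact ε.symm.injective (Subtype.ext h)
  have hWb : ∀ e, e ∈ W ↔ e ∈ E ∧ ∀ i, e ≠ b i := by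
    intro e
    rw [hW, Finset.mem_sdiff, Finset.mem_map]
    constructor
    · rintro ⟨h1, h2⟩
      exact ⟨h1, fun i h3 => h2 ⟨i, Finset.mem_univ _, h3.symm⟩⟩
    · rintro ⟨h1, h2⟩
      refine ⟨h1, ?_⟩
      rintro ⟨i, _, h3⟩
      exact h2 i h3.symm
  have hbc : ∀ (i : Fin r) (j : Fin W.card), b i ≠ ((ε.symm j).1 : α) := by
    intro i j h
    exact ((hWb _).1 (ε.symm j).2).2 i h.symm
  have hmem : ∀ e, e ∈ E ↔ (∃ i : Fin r, e = b i) ∨
      ∃ j : Fin W.card, e = ((ε.symm j).1 : α) := by
    intro e
    constructor
    · intro he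
      by_cases h1 : ∃ i, e = b i
      · exact Or.inl h1
      · push Not at h1
        obtain ⟨j, hj⟩ := ε.symm.surjective ⟨e, (hWb e).2 ⟨he, h1⟩⟩
        exact Or.inr ⟨j, by rw [hj]⟩
    · rintro (⟨i, rfl⟩ | ⟨j, rfl⟩)
      · exact hbE i
      · exact ((hWb _).1 (ε.symm j).2).1
  obtain ⟨N', K', hstar⟩ := exists_star
    (fun (i : Fin r) (j : Fin W.card) => ((ε.symm j).1 : α) ∈ A i) hbinj hc hbc hmem
  have hN' : N' = idx A := by
    funext e
    ext i
    rw [hstar.memN, mem_idx]
    constructor
    · rintro (rfl | ⟨j, rfl, h⟩)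
      · exact (hbA i i).2 rfl
      · exact h
    · intro he
      have heE : e ∈ E := by
        have := hA.1 i he
        rw [← hE] at this
        exact_mod_cast this
      rcases (hmem e).1 heE with ⟨i', rfl⟩ | ⟨j, rfl⟩
      · left
        rw [(hbA i' i).1 he]
      · exact Or.inr ⟨j, rfl, he⟩
  exact ⟨r, W.card, _, b, _, N', K', hstar, by rw [hN']; exact hA.2⟩

/-- in a principal matroid every two cyclic flats form a modular pair -/
theorem modular_of_isPrincipal {P : Matroid α} (hPf : P.Finite) (hP : IsPrincipal P)
    {F G : Set α} (hF : CycFlat P F) (hG : CycFlat P G) :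
    P.eRk (F ∪ G) + P.eRk (F ∩ G) = P.eRk F + P.eRk G := by
  classical
  have hE : (P.ground_finite.toFinset : Set α) = P.E := P.ground_finite.coe_toFinset
  obtain ⟨r, s, R, b, c, N, K, hstar, hN⟩ := exists_star_of_isPrincipal hE hP
  exact hstar.modular hE.symm hN hF hG

end link

/-- **Result.**  A finite matroid `M` is principal transversal if and only if `M` and its dual are
transversal and every two meet irreducible cyclic flats of `M` form a modular pair. -/
theorem result {α : Type*} (M : Matroid α) (hM : M.Finite) :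
    IsPrincipal M ↔
      (IsTransversal M ∧ IsTransversal M✶ ∧
        ∀ F G : {F : Set α // IsCyclicFlat M F}, MeetIrreducible F → MeetIrreducible G →
          ModularPair M F.1 G.1) := by
  classical
  have hE : (M.ground_finite.toFinset : Set α) = M.E := M.ground_finite.coe_toFinset
  constructor
  · intro hP
    obtain ⟨r, s, R, b, c, N, K, hstar, hN⟩ := exists_star_of_isPrincipal hE hP
    have h := hstar.sys hE.symm hN
    have hMd : M✶.Finite := by
      constructor
      rw [Matroid.dual_ground]; exact M.ground_finite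
    exact ⟨⟨r, _, isTransversal_of_pres hM h.pres⟩, ⟨s, _, isTransversal_of_pres hMd h.dpres⟩,
      fun F G _ _ => modular_of_isPrincipal hM hP F.2 G.2⟩
  · rintro ⟨hT, hT', hm⟩
    obtain ⟨r, s, N, K, h⟩ := exists_sys hM hE hT hT'
    obtain ⟨b, c, N', K', hstar, hN'⟩ := h.principal (h.all_of_meetIrr hm)
    exact star_principal hstar hE.symm hN'

end Pool.Agent.Results.MP_ab4175_co.ModularPairs
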