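import Pool.Agent.helper765_bt.Link
import Pool.Agent.helper765_bt.MI

/-!
# MP_ab4175_co: pairwise modular families of cyclic flats

Let `M` be a finite matroid such that `M` and its dual are both transversal.  We show that every
family of cyclic flats of `M` in which every two members form a modular pair satisfies the
Mason-Ingleton formula with equality.
-/

namespace Pool.Agent.Results.MP_ab4175_co.PairwiseMI

open Set Pool.Agent.H765

/-- The family `A` of subsets of the ground set presents `M`: the independent sets are exactly the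
partial transversals of `A` (the sets `I` with an injective choice of indices `f` such that
`e ∈ A (f e)` for `e ∈ I`). -/
def Presents {α : Type*} (M : Matroid α) {r : ℕ} (A : Fin r → Set α) : Prop :=
  (∀ i, A i ⊆ M.E) ∧
    ∀ I : Set α, M.Indep I ↔ ∃ f : I → Fin r, Function.Injective f ∧ ∀ e : I, (e : α) ∈ A (f e)

/-- `M` is transversal: it is presented by some finite family. -/
def IsTransversal {α : Type*} (M : Matroid α) : Prop :=
  ∃ (r : ℕ) (A : Fin r → Set α), Presents M A

/-- `F` is a cyclic flat of `M`: a flat each of whose elements lies in a circuit inside `F`. -/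
def IsCyclicFlat {α : Type*} (M : Matroid α) (F : Set α) : Prop :=
  M.IsFlat F ∧ ∀ e ∈ F, ∃ C, M.IsCircuit C ∧ C ⊆ F ∧ e ∈ C

/-- `F` and `G` form a modular pair: the submodular inequality of the rank function holds with
equality for them. -/
def ModularPair {α : Type*} (M : Matroid α) (F G : Set α) : Prop :=
  M.eRk (F ∪ G) + M.eRk (F ∩ G) = M.eRk F + M.eRk G

section link

variable {α : Type*}

theorem presents_iff {M : Matroid α} (hM : M.Finite) {r : ℕ} (A : Fin r → Set α) :
    Presents M A ↔ (∀ i, A i ⊆ M.E) ∧ Pres M (idx A) := by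
  constructor
  · rintro ⟨h1, h2⟩
    refine ⟨h1, fun I => ?_⟩
    rw [mt_idx, h2]
  · rintro ⟨h1, h2⟩
    refine ⟨h1, fun I => ?_⟩
    have key : ∀ I : Set α, I.Finite → (M.Indep I ↔ ∃ f : I → Fin r, Function.Injective f ∧
        ∀ e : I, (e : α) ∈ A (f e)) := by
      intro I hI
      have := h2 hI.toFinset
      rw [mt_idx, hI.coe_toFinset] at this
      exact this
    constructor
    · intro h
      exact (key I (M.ground_finite.subset h.subset_ground)).1 h
    · rintro ⟨f, hf, h⟩
      have hfin : I.Finite := by
        have := Finite.of_injective f hf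
        exact Set.toFinite I
      exact (key I hfin).2 ⟨f, hf, h⟩

/-- cut a presentation down to the size of the rank -/
theorem exists_rank_presentation {M : Matroid α} (hM : M.Finite) (h : IsTransversal M) :
    ∃ (r : ℕ) (A : Fin r → Set α), Presents M A ∧
      ∀ P : Finset α, M.IsBase (P : Set α) → P.card = r := by
  classical
  obtain ⟨k, A, hA⟩ := h
  rw [presents_iff hM] at hA
  set E := M.ground_finite.toFinset with hEdef
  have hE : (E : Set α) = M.E := M.ground_finite.coe_toFinset
  obtain ⟨P, _, _, hP⟩ := exists_isBase_finset M hE (I := ∅) (by simp)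
  obtain ⟨J, hJ, hJp⟩ := hA.2.reduce hP
  refine ⟨J.card, fun i => A (J.orderEmbOfFin rfl i), ?_, ?_⟩
  · rw [presents_iff hM]
    refine ⟨fun i => hA.1 _, ?_⟩
    intro I
    rw [hJp]
    rw [← mt_map (idx fun i => A (J.orderEmbOfFin rfl i)) (J.orderEmbOfFin rfl).toEmbedding]
    have : (fun e => (idx (fun i => A (J.orderEmbOfFin rfl i)) e).map
        (J.orderEmbOfFin rfl).toEmbedding) = fun e => idx A e ∩ J := by
      funext e
      ext i
      rw [Finset.mem_map, Finset.mem_inter, mem_idx]
      constructor
      · rintro ⟨i', hi', rfl⟩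
        rw [mem_idx] at hi'
        exact ⟨hi', Finset.orderEmbOfFin_mem _ _ _⟩
      · rintro ⟨h1, h2⟩
        have : i ∈ Set.range (J.orderEmbOfFin rfl) := by
          rw [Finset.range_orderEmbOfFin]; exact h2
        obtain ⟨i', rfl⟩ := this
        exact ⟨i', mem_idx.2 h1, rfl⟩
    rw [this]
  · intro P' hP'
    rw [isBase_card_eq hP' hP, hJ]

/-- transversality from index sets -/
theorem isTransversal_of_pres {M : Matroid α} (hM : M.Finite) {r : ℕ} {N : α → Finset (Fin r)}
    (h : Pres M N) : Presents M (fun i => {e | i ∈ N e}) := by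
  rw [presents_iff hM]
  refine ⟨fun i e he => h.mem_ground ⟨i, he⟩, ?_⟩
  have : idx (fun i => {e | i ∈ N e}) = N := by
    funext e
    ext i
    rw [mem_idx]
    rfl
  rw [this]
  exact h

/-- both matroids transversal: there is a dual pair of families that satisfies the Hall type
inequalities -/
theorem exists_sys [DecidableEq α] {M : Matroid α} (hM : M.Finite) {E : Finset α}
    (hE : (E : Set α) = M.E) (h1 : IsTransversal M) (h2 : IsTransversal M✶) :
    ∃ (r s : ℕ) (N : α → Finset (Fin r)) (K : α → Finset (Fin s)), Sys M N K E := by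
  have hMd : M✶.Finite := by
    constructor
    rw [Matroid.dual_ground]; exact M.ground_finite
  have hE' : (E : Set α) = M✶.E := by rw [hE, Matroid.dual_ground]
  obtain ⟨r, A, hA, hr⟩ := exists_rank_presentation hM h1
  obtain ⟨s, B, hB, hs⟩ := exists_rank_presentation hMd h2
  rw [presents_iff hM] at hA
  rw [presents_iff hMd] at hB
  have hc : r + s = E.card := by
    obtain ⟨P, _, hPE, hP⟩ := exists_isBase_finset M hE (I := ∅) (by simp)
    have h3 := hr P hP
    have h4 := hP.compl_isBase_dual
    rw [← hE, ← Finset.coe_sdiff] at h4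
    have h5 := hs _ h4
    rw [Finset.card_sdiff_of_subset hPE] at h5
    have := Finset.card_le_card hPE
    omega
  have hc' : Fintype.card (Fin r) + Fintype.card (Fin s) = E.card := by
    rw [Fintype.card_fin, Fintype.card_fin, hc]
  refine ⟨r, s, idx A, idx B, hE, hA.2, hB.2, hc', ?_, ?_⟩
  · exact DH_of_dual hE hA.2 hB.2 (fun P hP => by rw [hr P hP, Fintype.card_fin]) hc'
  · apply DH_of_dual hE' hB.2 _ (fun P hP => by rw [hs P hP, Fintype.card_fin])
      (by rw [add_comm]; exact hc')
    rw [Matroid.dual_dual]; exact hA.2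

end link

/-- **Result.**  Let `M` be a finite matroid such that `M` and its dual are both transversal.  Every
nonempty finite family of cyclic flats of `M` in which every two members form a modular pair
satisfies the Mason-Ingleton formula with equality: the rank of the intersection is the alternating
sum of the ranks of the unions of the subfamilies. -/
theorem result {α : Type*} (M : Matroid α) (hM : M.Finite) (hT : IsTransversal M)
    (hT' : IsTransversal M✶) (𝓕 : Finset (Set α)) (hne : 𝓕.Nonempty)
    (hF : ∀ F ∈ 𝓕, IsCyclicFlat M F) (hmod : ∀ F ∈ 𝓕, ∀ G ∈ 𝓕, ModularPair M F G) :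
    ((M.eRk (⋂ F ∈ 𝓕, F)).toNat : ℤ) =
      ∑ 𝓖 ∈ 𝓕.powerset, (-1) ^ (𝓖.card + 1) * ((M.eRk (⋃ F ∈ 𝓖, F)).toNat : ℤ) := by
  classical
  have hE : (M.ground_finite.toFinset : Set α) = M.E := M.ground_finite.coe_toFinset
  obtain ⟨r, s, N, K, h⟩ := exists_sys hM hE hT hT'
  exact h.masonIngleton hne hF hmod

end Pool.Agent.Results.MP_ab4175_co.PairwiseMI
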